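import Pool.Agent.Run7.h356.LP.Stm

/-!
# Piece CC of `Pool/Agent/Run7/h356/LP/Stm.lean` (problem MP_85210c_gt)
-/

set_option autoImplicit false

noncomputable section

open MeasureTheory Filter Topology Set
open scoped BigOperators Matrix ENNReal

namespace Run7.h639.LP

open H712MA H356LP

lemma measurableSet_Pos (n : ℕ) : MeasurableSet (Pos n) := by
  have : Pos n = Set.pi Set.univ (fun _ : Fin n => Ioi (0:ℝ)) := by
    ext s; simp [Pos, Set.mem_pi]
  rw [this]
  exact MeasurableSet.univ_pi (fun _ => measurableSet_Ioi)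

lemma measurableSet_Cub (n : ℕ) : MeasurableSet (Cub n) := by
  have : Cub n = Set.pi Set.univ (fun _ : Fin n => Ioo (0:ℝ) 1) := by
    ext s; simp [Cub, Set.mem_pi]
  rw [this]
  exact MeasurableSet.univ_pi (fun _ => measurableSet_Ioo)

lemma vol_Cub (n : ℕ) : volume (Cub n) = 1 := by
  have : Cub n = Set.pi Set.univ (fun _ : Fin n => Ioo (0:ℝ) 1) := by
    ext s; simp [Cub, Set.mem_pi]
  rw [this, volume_pi_pi]
  simp

lemma vol_Ang (n : ℕ) : volume (Ang n) ≠ ∞ := by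
  have : Ang n = Set.pi Set.univ (fun _ : Fin n => Ioo (-Real.pi) Real.pi) := by
    ext s; simp [Ang, Set.mem_pi]
  rw [this, volume_pi_pi]
  simp only [Real.volume_Ioo]
  exact ENNReal.prod_ne_top (fun _ _ => ENNReal.ofReal_ne_top)

/-- the exponential is integrable on the positive orthant -/
lemma lint_exp_Pos (n : ℕ) :
    ∫⁻ s in Pos n, ENNReal.ofReal (Real.exp (-∑ i, s i)) ≠ ∞ := by
  have e : Pos n = Set.pi Set.univ (fun _ : Fin n => Ioi (0:ℝ)) := by
    ext s; simp [Pos, Set.mem_pi]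
  have h1 : Integrable (fun s : Fin n → ℝ => ∏ i, Real.exp (-s i))
      (Measure.pi (fun _ : Fin n => (volume : Measure ℝ).restrict (Ioi (0:ℝ)))) := by
    apply Integrable.fintype_prod (f := fun _ : Fin n => fun t : ℝ => Real.exp (-t))
    intro _
    exact integrableOn_exp_neg_Ioi 0
  have h2 : (volume : Measure (Fin n → ℝ)).restrict (Pos n) =
      Measure.pi (fun _ : Fin n => (volume : Measure ℝ).restrict (Ioi (0:ℝ))) := by
    rw [e, volume_pi, Measure.restrict_pi_pi]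
  rw [h2]
  have h3 := h1.lintegral_lt_top
  refine ne_of_lt (lt_of_le_of_lt (le_of_eq ?_) h3)
  congr 1
  funext s
  rw [← Finset.sum_neg_distrib, Real.exp_sum]

lemma continuous_pk {n : ℕ} (v : Fin n → ℝ) : Continuous (fun z : E2 n => pk v z) := by
  have : (fun z : E2 n => pk v z) =
      fun z : E2 n => ((v ⬝ᵥ z.1 : ℝ) : ℂ) + ((v ⬝ᵥ z.2 : ℝ) : ℂ) * Complex.I := by
    funext z
    apply Complex.ext <;> simp [pk]
  rw [this]
  unfold dotProduct
  fun_prop

section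

variable {p q : ℝ} (D : Dat p q) {κ : Type} [Fintype κ] {n : ℕ} (l : κ → Fin n → ℝ)
  (f : Fin n → κ)

lemma continuous_VO : Continuous (D.VO l f) := by
  unfold Dat.VO
  refine continuous_finsetSum _ (fun k _ => D.Vcont.comp (continuous_pk (l k)))

/-- the integrand -/
def GG (w : Fin n → ℂ) : ℝ≥0∞ := ENNReal.ofReal (Real.exp (- D.VO l f (zf l f w)))

lemma continuous_GG (hz : Continuous (zf l f)) : Continuous (GG D l f) := by
  unfold GG
  exact ENNReal.continuous_ofReal.comp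
    (Real.continuous_exp.comp ((continuous_VO D l f).comp hz).neg)

lemma VO_nonneg (z : E2 n) : 0 ≤ D.VO l f z := by
  unfold Dat.VO
  exact Finset.sum_nonneg (fun k _ => D.Vnn _)

lemma GG_le_one (w : Fin n → ℂ) : GG D l f w ≤ 1 := by
  unfold GG
  rw [← ENNReal.ofReal_one]
  apply ENNReal.ofReal_le_ofReal
  rw [Real.exp_le_one_iff]
  linarith [VO_nonneg D l f (zf l f w)]

lemma measurable_ee : Measurable ee := by
  unfold ee
  fun_prop

lemma meas_H (m : ℕ) : Measurable (fun x : ℝ × ℝ => D.H m x.1 x.2) := by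
  unfold Dat.H
  refine D.hmeas.comp ?_
  refine Measurable.mul ?_ (measurable_ee.comp measurable_snd)
  exact Complex.measurable_ofReal.comp (measurable_fst.pow_const _)

/-- the integrand with three variables -/
def K3 (p : ℝ) (G : (Fin n → ℂ) → ℝ≥0∞) (H : ℝ → ℝ → ℂ)
    (v φ s : Fin n → ℝ) : ℝ≥0∞ :=
  ENNReal.ofReal (Real.exp (-∑ i, s i)) * G (fun i => ((s i ^ (1 / p) : ℝ) : ℂ) * H (v i) (φ i))

lemma meas_K3 (G : (Fin n → ℂ) → ℝ≥0∞) (hG : Measurable G) (H : ℝ → ℝ → ℂ)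
    (hH : Measurable (fun x : ℝ × ℝ => H x.1 x.2)) :
    Measurable (fun x : (Fin n → ℝ) × (Fin n → ℝ) × (Fin n → ℝ) =>
      K3 p G H x.1 x.2.1 x.2.2) := by
  unfold K3
  refine Measurable.mul ?_ (hG.comp ?_)
  · exact ENNReal.measurable_ofReal.comp (Real.measurable_exp.comp
      (Finset.measurable_sum _ (fun i _ =>
        (measurable_pi_apply i).comp (measurable_snd.comp measurable_snd))).neg)
  · refine measurable_pi_iff.2 (fun i => ?_)
    refine Measurable.mul ?_ ?_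
    · exact Complex.measurable_ofReal.comp
        (((measurable_pi_apply i).comp (measurable_snd.comp measurable_snd)).pow_const _)
    · have h1 : Measurable (fun x : (Fin n → ℝ) × (Fin n → ℝ) × (Fin n → ℝ) =>
          ((x.1 i, x.2.1 i) : ℝ × ℝ)) := by fun_prop
      exact hH.comp h1

end

/-- measurability of the iterated integrals -/
lemma meas_inner {n : ℕ} (K : (Fin n → ℝ) → (Fin n → ℝ) → (Fin n → ℝ) → ℝ≥0∞)
    (hK : Measurable (fun x : (Fin n → ℝ) × (Fin n → ℝ) × (Fin n → ℝ) => K x.1 x.2.1 x.2.2))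
    (A : Set (Fin n → ℝ)) :
    Measurable (fun x : (Fin n → ℝ) × (Fin n → ℝ) => ∫⁻ s in A, K x.1 x.2 s) := by
  have h2 : Measurable (fun x : ((Fin n → ℝ) × (Fin n → ℝ)) × (Fin n → ℝ) =>
      K x.1.1 x.1.2 x.2) := by
    have h1 : Measurable (fun x : ((Fin n → ℝ) × (Fin n → ℝ)) × (Fin n → ℝ) =>
      ((x.1.1, x.1.2, x.2) : (Fin n → ℝ) × (Fin n → ℝ) × (Fin n → ℝ))) := by fun_prop
    exact hK.comp h1
  exact h2.lintegral_prod_right'

/-- dominated convergence for the triple integral, abstract version -/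
lemma lim3' {n : ℕ} (K : ℕ → (Fin n → ℝ) → (Fin n → ℝ) → (Fin n → ℝ) → ℝ≥0∞)
    (K' : (Fin n → ℝ) → (Fin n → ℝ) → (Fin n → ℝ) → ℝ≥0∞)
    (hK : ∀ m, Measurable (fun x : (Fin n → ℝ) × (Fin n → ℝ) × (Fin n → ℝ) => K m x.1 x.2.1 x.2.2))
    (b : (Fin n → ℝ) → ℝ≥0∞) (hb : ∀ m v φ s, K m v φ s ≤ b s)
    (A B P : Set (Fin n → ℝ)) (hA : MeasurableSet A) (hAv : volume A ≠ ∞) (hBv : volume B ≠ ∞)
    (hE : ∫⁻ s in P, b s ≠ ∞)
    (hlim : ∀ v ∈ A, ∀ φ s, Tendsto (fun m => K m v φ s) atTop (𝓝 (K' v φ s)))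
    (g : (Fin n → ℝ) → ℝ≥0∞) (hg : Measurable g) (hg1 : ∀ v, g v ≤ 1) :
    Tendsto (fun m => ∫⁻ v in A, g v * ∫⁻ φ in B, ∫⁻ s in P, K m v φ s) atTop
      (𝓝 (∫⁻ v in A, g v * ∫⁻ φ in B, ∫⁻ s in P, K' v φ s)) := by
  obtain ⟨E, hEd⟩ : ∃ E, E = ∫⁻ s in P, b s := ⟨_, rfl⟩
  rw [← hEd] at hE
  have m1 : ∀ m, Measurable (fun x : (Fin n → ℝ) × (Fin n → ℝ) =>
      ∫⁻ s in P, K m x.1 x.2 s) := fun m => meas_inner _ (hK m) _
  have m2 : ∀ m, Measurable (fun v : (Fin n → ℝ) => ∫⁻ φ in B, ∫⁻ s in P, K m v φ s) :=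
    fun m => (m1 m).lintegral_prod_right'
  have b1 : ∀ m (v φ : Fin n → ℝ), ∫⁻ s in P, K m v φ s ≤ E := by
    intro m v φ
    rw [hEd]
    exact lintegral_mono (hb m v φ)
  have b2 : ∀ m (v : Fin n → ℝ), ∫⁻ φ in B, ∫⁻ s in P, K m v φ s ≤ E * volume B := by
    intro m v
    calc _ ≤ ∫⁻ φ in B, E := lintegral_mono (fun φ => b1 m v φ)
      _ = _ := by rw [setLIntegral_const]
  have hEB : E * volume B ≠ ∞ := ENNReal.mul_ne_top hE hBv
  obtain ⟨EB, hEBd⟩ : ∃ EB, EB = E * volume B := ⟨_, rfl⟩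
  rw [← hEBd] at hEB
  -- inner
  have t1 : ∀ v ∈ A, ∀ φ : Fin n → ℝ, Tendsto (fun m => ∫⁻ s in P, K m v φ s)
      atTop (𝓝 (∫⁻ s in P, K' v φ s)) := by
    intro v hv φ
    refine tendsto_lintegral_of_dominated_convergence b ?_ ?_ (by rw [← hEd]; exact hE) ?_
    · intro m
      have h1 : Measurable (fun s : Fin n → ℝ =>
        ((v, φ, s) : (Fin n → ℝ) × (Fin n → ℝ) × (Fin n → ℝ))) := by fun_prop
      exact (hK m).comp h1
    · intro m
      exact Eventually.of_forall (hb m v φ)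
    · exact Eventually.of_forall (hlim v hv φ)
  have t2 : ∀ v ∈ A, Tendsto (fun m => ∫⁻ φ in B, ∫⁻ s in P, K m v φ s)
      atTop (𝓝 (∫⁻ φ in B, ∫⁻ s in P, K' v φ s)) := by
    intro v hv
    refine tendsto_lintegral_of_dominated_convergence (fun _ => E) ?_ ?_ ?_ ?_
    · intro m
      have h1 : Measurable (fun φ : Fin n → ℝ => ((v, φ) : (Fin n → ℝ) × (Fin n → ℝ))) := by
        fun_prop
      exact (m1 m).comp h1
    · intro m
      exact Eventually.of_forall (b1 m v)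
    · rw [setLIntegral_const, ← hEBd]
      exact hEB
    · exact Eventually.of_forall (t1 v hv)
  refine tendsto_lintegral_of_dominated_convergence (fun _ => EB) ?_ ?_ ?_ ?_
  · intro m
    exact hg.mul (m2 m)
  · intro m
    refine Eventually.of_forall (fun v => ?_)
    calc g v * ∫⁻ φ in B, ∫⁻ s in P, K m v φ s ≤ 1 * EB := by
          gcongr
          · exact hg1 v
          · rw [hEBd]; exact b2 m v
      _ = _ := one_mul _
  · rw [setLIntegral_const]
    exact ENNReal.mul_ne_top hEB hAv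
  · rw [ae_restrict_iff' hA]
    refine Eventually.of_forall (fun v hv => ?_)
    refine ENNReal.Tendsto.const_mul (t2 v hv) (Or.inr ?_)
    exact ne_top_of_le_ne_top ENNReal.one_ne_top (hg1 v)

/-- dominated convergence for the triple integral -/
lemma lim3 {p : ℝ} {n : ℕ} (G : (Fin n → ℂ) → ℝ≥0∞) (hG : Continuous G) (hG1 : ∀ w, G w ≤ 1)
    (H : ℕ → ℝ → ℝ → ℂ) (hH : ∀ m, Measurable (fun x : ℝ × ℝ => H m x.1 x.2))
    (H' : ℝ → ℝ → ℂ)
    (hlim : ∀ v φ : ℝ, 0 < v → v < 1 → Tendsto (fun m => H m v φ) atTop (𝓝 (H' v φ)))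
    (ψ : ℝ → ℝ) (hψ : Measurable ψ) (hψ1 : ∀ v, ψ v ≤ 1) :
    Tendsto (fun m => ∫⁻ v in Cub n, ENNReal.ofReal (ψ (∑ i, v i)) *
        ∫⁻ φ in Ang n, ∫⁻ s in Pos n, K3 p G (H m) v φ s) atTop
      (𝓝 (∫⁻ v in Cub n, ENNReal.ofReal (ψ (∑ i, v i)) *
        ∫⁻ φ in Ang n, ∫⁻ s in Pos n, K3 p G H' v φ s)) := by
  have hC := measurableSet_Cub n
  have hCv : volume (Cub n) ≠ ∞ := by rw [vol_Cub]; exact ENNReal.one_ne_top
  have hAv := vol_Ang n
  have hE := lint_exp_Pos n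
  have hm : ∀ m, Measurable (fun x : (Fin n → ℝ) × (Fin n → ℝ) × (Fin n → ℝ) =>
      K3 p G (H m) x.1 x.2.1 x.2.2) :=
    fun m => meas_K3 (p := p) G hG.measurable (H m) (hH m)
  have hb : ∀ m (v φ s : Fin n → ℝ), K3 p G (H m) v φ s ≤
      ENNReal.ofReal (Real.exp (-∑ i, s i)) := by
    intro m v φ s
    unfold K3
    calc _ ≤ ENNReal.ofReal (Real.exp (-∑ i, s i)) * 1 := by gcongr; exact hG1 _
      _ = _ := mul_one _
  have hl : ∀ v ∈ Cub n, ∀ φ s, Tendsto (fun m => K3 p G (H m) v φ s) atTop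
      (𝓝 (K3 p G H' v φ s)) := by
    intro v hv φ s
    unfold K3
    refine ENNReal.Tendsto.const_mul ?_ (Or.inr ENNReal.ofReal_ne_top)
    refine (hG.tendsto _).comp ?_
    rw [tendsto_pi_nhds]
    intro i
    exact (hlim (v i) (φ i) (hv i).1 (hv i).2).const_mul _
  have hg : Measurable (fun v : Fin n → ℝ => ENNReal.ofReal (ψ (∑ i, v i))) :=
    ENNReal.measurable_ofReal.comp (hψ.comp
      (Finset.measurable_sum _ (fun i _ => measurable_pi_apply i)))
  have hg1 : ∀ v : Fin n → ℝ, ENNReal.ofReal (ψ (∑ i, v i)) ≤ 1 := by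
    intro v
    rw [← ENNReal.ofReal_one]
    exact ENNReal.ofReal_le_ofReal (hψ1 _)
  exact lim3' (fun m => K3 p G (H m)) (K3 p G H') hm _ hb (Cub n) (Ang n) (Pos n) hC hCv hAv hE hl
    _ hg hg1

lemma H_lim {p q : ℝ} (D : Dat p q) (v φ : ℝ) (h0 : 0 < v) (h1 : v < 1) :
    Tendsto (fun m : ℕ => D.H m v φ) atTop (𝓝 (D.h (ee φ))) := by
  have hn : ‖ee φ‖ = 1 := by unfold ee; exact Complex.norm_exp_ofReal_mul_I φ
  have hmem : ee φ ∈ Metric.closedBall (0:ℂ) 1 := by
    rw [mem_closedBall_zero_iff, hn]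
  have hc := D.cont (ee φ) hmem
  have e0 : Tendsto (fun m : ℕ => 1 / (2 * (m : ℝ))) atTop (𝓝 0) := by
    have h2 : Tendsto (fun m : ℕ => (2 * (m : ℝ))) atTop atTop :=
      tendsto_natCast_atTop_atTop.const_mul_atTop (by norm_num)
    exact (tendsto_const_nhds (x := (1:ℝ))).div_atTop h2
  have e1 : Tendsto (fun m : ℕ => v ^ (1 / (2 * (m : ℝ)))) atTop (𝓝 1) := by
    have := (Real.continuousAt_const_rpow (a := v) (b := 0) h0.ne').tendsto.comp e0
    rw [Real.rpow_zero] at this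
    exact this
  have e2 : Tendsto (fun m : ℕ => ((v ^ (1 / (2 * (m : ℝ))) : ℝ) : ℂ) * ee φ) atTop
      (𝓝 (ee φ)) := by
    have h3 := ((Complex.continuous_ofReal.tendsto 1).comp e1).mul_const (ee φ)
    rw [Complex.ofReal_one, one_mul] at h3
    exact h3
  have e3 : ∀ m : ℕ, ((v ^ (1 / (2 * (m : ℝ))) : ℝ) : ℂ) * ee φ ∈ Metric.closedBall (0:ℂ) 1 := by
    intro m
    rw [mem_closedBall_zero_iff, norm_mul, hn, mul_one, Complex.norm_real, Real.norm_eq_abs,
      abs_of_nonneg (Real.rpow_nonneg h0.le _)]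
    exact Real.rpow_le_one h0.le h1.le (by positivity)
  exact hc.tendsto.comp (tendsto_nhdsWithin_iff.2 ⟨e2, Eventually.of_forall e3⟩)

open Classical in
lemma VS_eq {p q : ℝ} (D : Dat p q) {κ : Type} [Fintype κ] {n : ℕ} (l : κ → Fin n → ℝ)
    (f : Fin n → κ) (hf : dt l f ≠ 0) (hz : ∀ t i, pk (l (f i)) (zf l f t) = t i)
    (s φ : Fin n → ℝ) (hs : ∀ i, 0 < s i) :
    D.VS l (zf l f fun i => D.T (s i) (φ i)) =
      ∑ i, s i + D.VO l f (zf l f fun i => D.T (s i) (φ i)) := by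
  have hinj : Function.Injective f := by
    intro a b hab
    by_contra hne
    apply hf
    unfold dt
    exact Matrix.det_zero_of_row_eq hne (by funext j; simp [hab])
  unfold Dat.VS Dat.VO
  rw [← Finset.sum_filter_add_sum_filter_not Finset.univ (fun k => k ∈ Set.range f)]
  congr 1
  have e : Finset.univ.filter (fun k => k ∈ Set.range f) = Finset.univ.image f := by
    ext k; simp
  rw [e, Finset.sum_image (fun a _ b _ h => hinj h)]
  refine Finset.sum_congr rfl (fun i _ => ?_)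
  rw [hz]
  exact D.VT (s i) (φ i) (hs i)

/-- piece CC -/
theorem CC (h : S_CCA) (hZ : S_ZF) (hS : S_S) : S_CC := by
  classical
  intro p q D hp κ _ r l hl
  obtain ⟨ψ, v1, hψ, hψ1, hI⟩ := hS (1/2) (by norm_num) (by norm_num)
  set I : ℝ := ∫ s in Pos (r + 1), ψ (∑ i, s i) with hIdef
  have hIpos : 0 < I := lt_of_lt_of_le (by positivity) (hI (r + 1))
  have hψm : Measurable ψ := hψ.smooth.continuous.measurable
  have hint : Integrable (fun s : Fin (r + 1) → ℝ => ψ (∑ i, s i)) (volume.restrict (Pos (r + 1))) := by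
    by_contra hcon
    exact hIpos.ne' (integral_undef hcon)
  have hIe : ENNReal.ofReal I = ∫⁻ s in Pos (r + 1), ENNReal.ofReal (ψ (∑ i, s i)) :=
    ofReal_integral_eq_lintegral_ofReal hint (Eventually.of_forall (fun s => hψ.nonneg _))
  have hcub : ∫⁻ v in Cub (r + 1), ENNReal.ofReal (ψ (∑ i, v i)) ≤ ENNReal.ofReal I := by
    rw [hIe]
    exact lintegral_mono_set (fun s hs i => (hs i).1)
  set C : ℝ := ((r + 1).factorial : ℝ) * (2 * Real.pi) ^ (r + 1) with hC
  -- the limit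
  set R : (Fin (r + 1) → κ) → ℝ≥0∞ := fun f => ∫⁻ s in Pos (r + 1), ∫⁻ φ in Ang (r + 1),
          ENNReal.ofReal (Real.exp (- D.VS l (zf l f fun i => D.T (s i) (φ i)))) with hR
  have key : ∀ f : Fin (r + 1) → κ, dt l f ≠ 0 →
      Tendsto (fun m : ℕ => ∫⁻ v in Cub (r + 1), ENNReal.ofReal (ψ (∑ i, v i)) * ∫⁻ φ in Ang (r + 1),
          ∫⁻ s in Pos (r + 1), ENNReal.ofReal (Real.exp (-∑ i, s i)) *
            ENNReal.ofReal (Real.exp (- D.VO l f
              (zf l f fun i => ((s i ^ (1 / p) : ℝ) : ℂ) * D.H m (v i) (φ i))))) atTop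
        (𝓝 ((∫⁻ v in Cub (r + 1), ENNReal.ofReal (ψ (∑ i, v i))) * R f)) := by
    intro f hf
    obtain ⟨hz1, hz2, _, _⟩ := hZ κ (r + 1) l f hf
    have h1 := lim3 (p := p) (GG D l f) (continuous_GG D l f hz2) (GG_le_one D l f)
      (fun m => D.H m) (fun m => meas_H D m) (fun _ φ => D.h (ee φ))
      (fun v φ h0 h1 => H_lim D v φ h0 h1) ψ hψm hψ1
    have hswap : ∀ v : Fin (r + 1) → ℝ, ∫⁻ φ in Ang (r + 1), ∫⁻ s in Pos (r + 1),
        K3 p (GG D l f) (fun _ φ => D.h (ee φ)) v φ s = R f := by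
      intro v
      rw [hR]
      simp only
      rw [lintegral_lintegral_swap]
      · refine setLIntegral_congr_fun (measurableSet_Pos (r + 1)) (fun s hs => ?_)
        refine lintegral_congr (fun φ => ?_)
        unfold K3 GG
        rw [← ENNReal.ofReal_mul (Real.exp_pos _).le, ← Real.exp_add]
        congr 2
        have := VS_eq D l f hf hz1 s φ hs
        rw [this]
        unfold Dat.T
        ring
      · have hh : Measurable (fun x : ℝ × ℝ => (fun _ φ => D.h (ee φ)) x.1 x.2) :=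
          D.hmeas.comp (measurable_ee.comp measurable_snd)
        have h2 := meas_K3 (p := p) (GG D l f) (continuous_GG D l f hz2).measurable
          (fun _ φ => D.h (ee φ)) hh
        exact (h2.comp (measurable_const.prodMk
          (measurable_fst.prodMk measurable_snd))).aemeasurable
    have h2 : ∫⁻ v in Cub (r + 1), ENNReal.ofReal (ψ (∑ i, v i)) *
        ∫⁻ φ in Ang (r + 1), ∫⁻ s in Pos (r + 1), K3 p (GG D l f) (fun _ φ => D.h (ee φ)) v φ s =
        (∫⁻ v in Cub (r + 1), ENNReal.ofReal (ψ (∑ i, v i))) * R f := by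
      simp_rw [hswap]
      rw [lintegral_mul_const]
      exact ENNReal.measurable_ofReal.comp (hψm.comp
        (Finset.measurable_sum _ (fun i _ => measurable_pi_apply i)))
    rw [h2] at h1
    exact h1
  have hlim : Tendsto (fun m : ℕ => ∑ f : Fin (r + 1) → κ, if dt l f = 0 then 0 else
        ∫⁻ v in Cub (r + 1), ENNReal.ofReal (ψ (∑ i, v i)) * ∫⁻ φ in Ang (r + 1),
          ∫⁻ s in Pos (r + 1), ENNReal.ofReal (Real.exp (-∑ i, s i)) *
            ENNReal.ofReal (Real.exp (- D.VO l f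
              (zf l f fun i => ((s i ^ (1 / p) : ℝ) : ℂ) * D.H m (v i) (φ i))))) atTop
        (𝓝 (∑ f : Fin (r + 1) → κ, if dt l f = 0 then 0 else
          (∫⁻ v in Cub (r + 1), ENNReal.ofReal (ψ (∑ i, v i))) * R f)) := by
    refine tendsto_finsetSum _ (fun f _ => ?_)
    by_cases hf : dt l f = 0
    · simp only [hf, if_true]
      exact tendsto_const_nhds
    · simp only [hf, if_false]
      exact key f hf
  have hle : ENNReal.ofReal (C * I) ≤ ∑ f : Fin (r + 1) → κ, if dt l f = 0 then 0 else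
          (∫⁻ v in Cub (r + 1), ENNReal.ofReal (ψ (∑ i, v i))) * R f := by
    refine ge_of_tendsto hlim ?_
    filter_upwards [eventually_ge_atTop 1] with m hm
    exact h p q D hp κ r l hl ψ v1 hψ m hm
  have hle2 : ENNReal.ofReal I * ENNReal.ofReal C ≤ ENNReal.ofReal I *
      ∑ f : Fin (r + 1) → κ, if dt l f = 0 then 0 else R f := by
    rw [← ENNReal.ofReal_mul hIpos.le, mul_comm I C]
    refine hle.trans ?_
    rw [Finset.mul_sum]
    refine Finset.sum_le_sum (fun f _ => ?_)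
    by_cases hf : dt l f = 0
    · simp [hf]
    · simp only [hf, if_false]
      gcongr
  have h0 : ENNReal.ofReal I ≠ 0 := by
    rw [Ne, ENNReal.ofReal_eq_zero, not_le]; exact hIpos
  exact (ENNReal.mul_le_mul_iff_right h0 ENNReal.ofReal_ne_top).1 hle2

end Run7.h639.LP


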