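import Pool.Agent.Run7.h356.LP.Stm

/-!
# Piece FRO of `Pool/Agent/Run7/h356/LP/Stm.lean` (problem MP_85210c_gt)
-/

set_option autoImplicit false

noncomputable section

open MeasureTheory Filter Topology Set
open scoped BigOperators Matrix ENNReal

namespace Run7.h639.LP

open H712MA H356LP

lemma norm_ee (φ : ℝ) : ‖ee φ‖ = 1 := by
  unfold ee; exact Complex.norm_exp_ofReal_mul_I φ

lemma ee_ne (φ : ℝ) : ee φ ≠ 0 := by
  unfold ee; exact Complex.exp_ne_zero _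

lemma ee_arg {z : ℂ} (hz : ‖z‖ = 1) : ee (Complex.arg z) = z := by
  unfold ee
  have := Complex.norm_mul_exp_arg_mul_I z
  rw [hz] at this
  simpa using this

lemma arg_ee {φ : ℝ} (h1 : |φ| < Real.pi / 2) : Complex.arg (ee φ) = φ := by
  unfold ee
  rw [abs_lt] at h1
  have hp := Real.pi_pos
  rw [Complex.arg_exp_mul_I, toIocMod_eq_self]
  constructor <;> linarith [h1.1, h1.2]

lemma ee_add_pi (φ : ℝ) : ee (φ + Real.pi) = - ee φ := by
  unfold ee
  push_cast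
  rw [add_mul, Complex.exp_add, Complex.exp_pi_mul_I]
  ring

lemma S_per {p q : ℝ} (T : Trig p q) (φ : ℝ) : T.S (φ + 2 * Real.pi) = T.S φ := by
  have : φ + 2 * Real.pi = (φ + Real.pi) + Real.pi := by ring
  rw [this, T.Spi, T.Spi, neg_neg]

lemma S_arg_ee {p q : ℝ} (T : Trig p q) (φ : ℝ) : T.S (Complex.arg (ee φ)) = T.S φ := by
  unfold ee
  rw [Complex.arg_exp_mul_I]
  have hper : Function.Periodic T.S (2 * Real.pi) := S_per T
  rw [toIocMod]
  exact hper.sub_zsmul_eq _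

lemma S_arg_neg {p q : ℝ} (T : Trig p q) {z : ℂ} (hz : ‖z‖ = 1) :
    T.S (Complex.arg (-z)) = - T.S (Complex.arg z) := by
  have h1 : -z = ee (Complex.arg z + Real.pi) := by rw [ee_add_pi, ee_arg hz]
  rw [h1, S_arg_ee, T.Spi]

lemma B_neg (D : Disc) (z : ℂ) : D.B (-z) = D.B z := by
  unfold Disc.B
  rw [D.odd, D.evend, map_neg]
  ring_nf

/-- positivity of the generalised cosine only on `(-π/2, π/2)` -/
lemma abs_lt_of_c_pos {p q : ℝ} (T : Trig p q) {φ : ℝ} (h1 : -Real.pi < φ) (h2 : φ ≤ Real.pi)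
    (hc : 0 < T.c φ) : |φ| < Real.pi / 2 := by
  have key : ∀ ψ : ℝ, Real.pi / 2 ≤ ψ → ψ ≤ Real.pi → T.c ψ ≤ 0 := by
    intro ψ ha hb
    have e : T.c ψ = - T.c (ψ - Real.pi) := by
      have := T.cpi (ψ - Real.pi)
      rw [sub_add_cancel] at this
      exact this
    rcases eq_or_lt_of_le ha with h | h
    · have e2 : ψ - Real.pi = -ψ := by rw [← h]; ring
      rw [e2, T.even] at e
      linarith
    · have := T.cpos (ψ - Real.pi) (by rw [abs_lt]; constructor <;> linarith)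
      linarith
  by_contra hcon
  push Not at hcon
  rcases le_abs.1 hcon with h | h
  · exact absurd hc (not_lt.2 (key φ h h2))
  · have := key (-φ) h (by linarith)
    rw [T.even] at this
    exact absurd hc (not_lt.2 this)

lemma F_deriv {p q : ℝ} (hp : 1 < p) (hpq : Real.HolderConjugate p q) (T : Trig p q) {x : ℝ}
    (hx : 0 < x) {φ : ℝ} (hφ : 0 < T.c φ) :
    HasDerivAt (fun φ => (x / T.c φ) ^ (p - 1) * T.S φ)
      (T.k * p * (x ^ (p - 1) * T.c φ ^ (-p))) φ := by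
  have hc' := T.dc φ
  have hS' := T.dS φ
  have hc0 : T.c φ ≠ 0 := hφ.ne'
  have h1 : HasDerivAt (fun φ => x / T.c φ)
      ((0 * T.c φ - x * (-(T.k * sp (q - 1) (T.S φ)))) / T.c φ ^ 2) φ :=
    (hasDerivAt_const φ x).div hc' hc0
  have hpos : 0 < x / T.c φ := by positivity
  have h2 := (h1.rpow_const (p := p - 1) (Or.inl hpos.ne')).mul hS'
  refine h2.congr_deriv ?_
  have hq : 1 < q := hpq.symm.lt
  have hpq1 : (p - 1) * q = p := by
    have := hpq.sub_one_mul_conj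
    exact this
  have hspc : sp (p - 1) (T.c φ) = T.c φ ^ (p - 1) := by
    unfold sp
    rw [Real.sign_of_pos hφ, abs_of_pos hφ, one_mul]
  have hspS : sp (q - 1) (T.S φ) * T.S φ = |T.S φ| ^ q := by
    unfold sp
    have e1 : Real.sign (T.S φ) * T.S φ = |T.S φ| := by
      rcases lt_trichotomy (T.S φ) 0 with h | h | h
      · rw [Real.sign_of_neg h, abs_of_neg h]; ring
      · rw [h]; simp
      · rw [Real.sign_of_pos h, abs_of_pos h]; ring
    have e2 : |T.S φ| ^ (q - 1) * |T.S φ| = |T.S φ| ^ q := by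
      rcases eq_or_lt_of_le (abs_nonneg (T.S φ)) with h | h
      · rw [← h, mul_zero, Real.zero_rpow (by linarith)]
      · rw [Real.rpow_sub_one h.ne']
        field_simp
    calc Real.sign (T.S φ) * |T.S φ| ^ (q - 1) * T.S φ
        = |T.S φ| ^ (q - 1) * (Real.sign (T.S φ) * T.S φ) := by ring
      _ = _ := by rw [e1, e2]
  have hham := T.ham φ
  rw [abs_of_pos hφ] at hham
  have hp0 : (0:ℝ) < p := by linarith
  have hq0 : (0:ℝ) < q := by linarith
  have hham2 : T.c φ ^ p + (p - 1) * |T.S φ| ^ q = p := by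
    have e : T.c φ ^ p + (p - 1) * |T.S φ| ^ q = p * (T.c φ ^ p / p + |T.S φ| ^ q / q) := by
      field_simp
      linear_combination |T.S φ| ^ q * hpq1
    rw [e, hham, mul_one]
  have e3 : (x / T.c φ) ^ (p - 1) = x ^ (p - 1) * T.c φ ^ (-(p - 1)) := by
    rw [Real.div_rpow hx.le hφ.le, Real.rpow_neg hφ.le]; rfl
  have e4 : (x / T.c φ) ^ (p - 1 - 1) = x ^ (p - 1) * T.c φ ^ (-p) * (T.c φ ^ 2 / x) := by
    rw [Real.div_rpow hx.le hφ.le, Real.rpow_sub_one hx.ne', Real.rpow_sub_one hc0,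
      Real.rpow_sub_one hc0, Real.rpow_neg hφ.le]
    have : T.c φ ^ p ≠ 0 := (Real.rpow_pos_of_pos hφ p).ne'
    field_simp
  have e5 : T.c φ ^ (-(p - 1)) = T.c φ ^ (-p) * T.c φ := by
    rw [neg_sub, Real.rpow_sub hφ, Real.rpow_neg hφ.le, Real.rpow_one]
    field_simp
  have e6 : T.c φ ^ (p - 1) = T.c φ ^ p / T.c φ := Real.rpow_sub_one hc0 p
  rw [e4, hspc, e3, e5, e6]
  have hx0 : x ≠ 0 := hx.ne'
  field_simp
  have e7 : T.c φ ^ (-p) * T.c φ ^ p = 1 := by
    rw [← Real.rpow_add hφ, neg_add_cancel, Real.rpow_zero]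
  linear_combination (x * T.k * (p - 1)) * hspS + x * T.k * hham2

/-- the case `x > 0` -/
lemma fro_pos {p q : ℝ} (hp : 1 < p) (hpq : Real.HolderConjugate p q)
    (T : Trig p q) (D : Disc) (hre : ∀ φ : ℝ, (D.h (ee φ)).re = T.c φ)
    (v4 : ∀ (s : ℝ) (z : ℂ), 0 < s → ‖z‖ = 1 → D.V p (((s ^ (1 / p) : ℝ) : ℂ) * D.h z) = s ∧
      D.ze p (((s ^ (1 / p) : ℝ) : ℂ) * D.h z) = z)
    (v5 : ∀ t : ℂ, t ≠ 0 → 0 < D.V p t ∧ ‖D.ze p t‖ = 1 ∧
      ((D.V p t ^ (1 / p) : ℝ) : ℂ) * D.h (D.ze p t) = t)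
    (v6 : ContinuousOn (D.ze p) {0}ᶜ) {x : ℝ} (hx : 0 < x) (y : ℝ) :
    HasDerivAt (fun y : ℝ => D.F p q T.S ⟨x, y⟩) (D.rho p T.k ⟨x, y⟩) y ∧
    0 < D.rho p T.k ⟨x, y⟩ ∧ D.V p ⟨x, y⟩ = |x| ^ p / p + |D.F p q T.S ⟨x, y⟩| ^ q / q := by
  have hp0 : (0:ℝ) < p := by linarith
  have hq : 1 < q := hpq.symm.lt
  have hq0 : (0:ℝ) < q := by linarith
  have hpq1 : (p - 1) * q = p := hpq.sub_one_mul_conj
  have hxne : ∀ y : ℝ, (⟨x, y⟩ : ℂ) ≠ 0 := by
    intro y h
    have := congrArg Complex.re h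
    simp at this
    exact hx.ne' this
  set Y : ℝ → ℝ := fun φ => (D.h (ee φ)).im with hY
  set P : ℝ → ℝ := fun y => Complex.arg (D.ze p ⟨x, y⟩) with hP
  have hh : ∀ φ, D.h (ee φ) = ⟨T.c φ, Y φ⟩ := by
    intro φ
    apply Complex.ext
    · exact hre φ
    · rfl
  -- basic facts for each `y`
  have fact : ∀ y : ℝ, D.ze p ⟨x, y⟩ = ee (P y) ∧ 0 < T.c (P y) ∧ |P y| < Real.pi / 2 ∧
      D.V p ⟨x, y⟩ = (x / T.c (P y)) ^ p ∧ x * Y (P y) / T.c (P y) = y := by
    intro y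
    obtain ⟨hV, hn, ht⟩ := v5 ⟨x, y⟩ (hxne y)
    have e1 : ee (P y) = D.ze p ⟨x, y⟩ := ee_arg hn
    rw [← e1, hh] at ht
    have r1 := congrArg Complex.re ht
    have r2 := congrArg Complex.im ht
    rw [Complex.re_ofReal_mul] at r1
    rw [Complex.im_ofReal_mul] at r2
    simp only at r1 r2
    have hVp : 0 < D.V p ⟨x, y⟩ ^ (1 / p) := Real.rpow_pos_of_pos hV _
    have hc : 0 < T.c (P y) := by
      by_contra hcon
      push Not at hcon
      have : D.V p ⟨x, y⟩ ^ (1 / p) * T.c (P y) ≤ 0 := mul_nonpos_of_nonneg_of_nonpos hVp.le hcon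
      linarith
    have e2 : D.V p ⟨x, y⟩ ^ (1 / p) = x / T.c (P y) := by
      rw [eq_div_iff hc.ne']; exact r1
    refine ⟨e1.symm, hc, abs_lt_of_c_pos T (Complex.neg_pi_lt_arg _) (Complex.arg_le_pi _) hc, ?_, ?_⟩
    · rw [← e2, ← Real.rpow_mul hV.le, one_div, inv_mul_cancel₀ hp0.ne', Real.rpow_one]
    · rw [e2] at r2
      calc x * Y (P y) / T.c (P y) = x / T.c (P y) * Y (P y) := by ring
        _ = y := r2
  have hFeq : ∀ y : ℝ, D.F p q T.S ⟨x, y⟩ = (x / T.c (P y)) ^ (p - 1) * T.S (P y) := by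
    intro y
    obtain ⟨_, hc, _, hV, _⟩ := fact y
    unfold Disc.F
    rw [hV, ← Real.rpow_mul (by positivity)]
    congr 2
    rw [mul_one_div, div_eq_iff hq0.ne', hpq1]
  obtain ⟨hze, hc, hab, hV, hgy⟩ := fact y
  have hB : 0 < D.B (ee (P y)) := D.star _ (norm_ee _).le (ee_ne _)
  -- derivative of `x Y / c`
  have hw := D.derb (P y)
  set w : ℂ := ee (P y) * D.hd (ee (P y)) with hwdef
  have hw2 : Complex.I * ee (P y) * D.hd (ee (P y)) = Complex.I * w := by rw [hwdef]; ring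
  rw [hw2] at hw
  have hYd : HasDerivAt Y w.re (P y) := by
    have h := (Complex.imCLM.hasFDerivAt (x := D.h (ee (P y)))).comp_hasDerivAt (P y) hw
    refine h.congr_deriv ?_
    simp
  have hcd : T.k * sp (q - 1) (T.S (P y)) = w.im := by
    have h := (Complex.reCLM.hasFDerivAt (x := D.h (ee (P y)))).comp_hasDerivAt (P y) hw
    have h2 : HasDerivAt T.c (-w.im) (P y) := by
      have e : (fun φ : ℝ => (D.h (ee φ)).re) = T.c := funext hre
      rw [← e]
      refine h.congr_deriv ?_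
      simp
    have := h2.unique (T.dc (P y))
    linarith
  have hcd' : HasDerivAt T.c (-w.im) (P y) := by
    rw [← hcd]; exact T.dc (P y)
  have hBw : D.B (ee (P y)) = T.c (P y) * w.re + Y (P y) * w.im := by
    unfold Disc.B
    rw [← hwdef, hh, Complex.mul_re]
    simp
    ring
  have hg : HasDerivAt (fun φ => x * Y φ / T.c φ) (x * D.B (ee (P y)) / T.c (P y) ^ 2) (P y) := by
    refine ((hYd.const_mul x).div hcd' hc.ne').congr_deriv ?_
    rw [hBw]
    ring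
  have hPc : ContinuousAt P y := by
    have h1 : ContinuousAt (D.ze p) ⟨x, y⟩ :=
      v6.continuousAt (isOpen_compl_singleton.mem_nhds (hxne y))
    have h2 : ContinuousAt (fun y : ℝ => (⟨x, y⟩ : ℂ)) y := by
      have : (fun y : ℝ => (⟨x, y⟩ : ℂ)) = fun y : ℝ => (x : ℂ) + y * Complex.I := by
        funext y
        apply Complex.ext <;> simp
      rw [this]
      fun_prop
    have h3 : ContinuousAt Complex.arg (D.ze p ⟨x, y⟩) := by
      apply Complex.continuousAt_arg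
      rw [Complex.mem_slitPlane_iff_arg]
      refine ⟨?_, ?_⟩
      · have hpi := Real.pi_pos
        rw [abs_lt] at hab
        have : Complex.arg (D.ze p ⟨x, y⟩) < Real.pi / 2 := hab.2
        linarith
      · rw [hze]; exact ee_ne _
    exact ContinuousAt.comp (f := fun y : ℝ => D.ze p ⟨x, y⟩) h3
      (ContinuousAt.comp (f := fun y : ℝ => (⟨x, y⟩ : ℂ)) h1 h2)
  have hg0 : x * D.B (ee (P y)) / T.c (P y) ^ 2 ≠ 0 := by positivity
  have hPd : HasDerivAt P (x * D.B (ee (P y)) / T.c (P y) ^ 2)⁻¹ y :=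
    HasDerivAt.of_local_left_inverse hPc hg hg0
      (Eventually.of_forall fun y => (fact y).2.2.2.2)
  have hFd := (F_deriv hp hpq T hx hc).comp y hPd
  have hrho : D.rho p T.k ⟨x, y⟩ =
      T.k * p * (x ^ (p - 1) * T.c (P y) ^ (-p)) * (x * D.B (ee (P y)) / T.c (P y) ^ 2)⁻¹ := by
    unfold Disc.rho
    rw [if_neg (hxne y), hze, hV, ← Real.rpow_mul (by positivity)]
    have e1 : p * (1 - 2 / p) = p - 2 := by field_simp
    rw [e1, Real.div_rpow hx.le hc.le, Real.rpow_sub hx, Real.rpow_sub hc, Real.rpow_sub_one hx.ne',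
      Real.rpow_neg hc.le]
    have e2 : x ^ (2:ℝ) = x ^ 2 := Real.rpow_natCast x 2
    have e3 : T.c (P y) ^ (2:ℝ) = T.c (P y) ^ 2 := Real.rpow_natCast _ 2
    rw [e2, e3]
    have h1 : T.c (P y) ^ p ≠ 0 := (Real.rpow_pos_of_pos hc p).ne'
    field_simp
  refine ⟨?_, ?_, ?_⟩
  · have e : (fun y : ℝ => D.F p q T.S ⟨x, y⟩) =
        (fun φ => (x / T.c φ) ^ (p - 1) * T.S φ) ∘ P := by
      funext y; exact hFeq y
    rw [e, hrho]
    exact hFd
  · rw [hrho]
    have := T.k_pos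
    positivity
  · rw [hFeq, hV, abs_mul, abs_of_pos (Real.rpow_pos_of_pos (by positivity) _),
      Real.mul_rpow (Real.rpow_nonneg (by positivity) _) (abs_nonneg _),
      ← Real.rpow_mul (by positivity), hpq1, abs_of_pos hx]
    have h1 := T.ham (P y)
    rw [abs_of_pos hc] at h1
    have h2 : x ^ p = (x / T.c (P y)) ^ p * T.c (P y) ^ p := by
      rw [← Real.mul_rpow (by positivity) hc.le, div_mul_cancel₀ _ hc.ne']
    rw [h2]
    linear_combination (-(x / T.c (P y)) ^ p) * h1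

/-- piece FRO -/
theorem FRO (h : S_VVV) : S_FRO := by
  intro p q hp _ hpq T D hre x y hx
  have hp0 : (0:ℝ) < p := by linarith
  obtain ⟨_, _, _, v4, v5, v6, v7⟩ := h D p hp0
  rcases lt_or_gt_of_ne hx with hx | hx
  · have hne : ∀ y : ℝ, (⟨x, y⟩ : ℂ) ≠ 0 := by
      intro y h
      have := congrArg Complex.re h
      simp at this
      exact hx.ne this
    have hneg : ∀ y : ℝ, (⟨-x, -y⟩ : ℂ) = - ⟨x, y⟩ := by
      intro y
      apply Complex.ext <;> simp
    have hF : ∀ y : ℝ, D.F p q T.S ⟨x, y⟩ = - D.F p q T.S ⟨-x, -y⟩ := by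
      intro y
      obtain ⟨a, b⟩ := v7 ⟨x, y⟩ (hne y)
      unfold Disc.F
      rw [hneg, a, b, S_arg_neg T (v5 _ (hne y)).2.1]
      ring
    have hrho : D.rho p T.k ⟨x, y⟩ = D.rho p T.k ⟨-x, -y⟩ := by
      obtain ⟨a, b⟩ := v7 ⟨x, y⟩ (hne y)
      unfold Disc.rho
      rw [hneg, if_neg (hne y), if_neg (neg_ne_zero.2 (hne y)), a, b, B_neg]
    have hV : D.V p ⟨x, y⟩ = D.V p ⟨-x, -y⟩ := by
      rw [hneg, (v7 _ (hne y)).1]
    obtain ⟨h1, h2, h3⟩ := fro_pos hp hpq T D hre v4 v5 v6 (neg_pos.2 hx) (-y)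
    refine ⟨?_, ?_, ?_⟩
    · have e : (fun y : ℝ => D.F p q T.S ⟨x, y⟩) =
          fun y : ℝ => - D.F p q T.S ⟨-x, -y⟩ := funext hF
      rw [e, hrho]
      have h4 := (HasDerivAt.comp y h1 (hasDerivAt_neg y)).neg
      refine h4.congr_deriv ?_
      ring
    · rw [hrho]; exact h2
    · rw [hV, h3, hF y, abs_neg, abs_neg]
  · exact fro_pos hp hpq T D hre v4 v5 v6 hx y

end Run7.h639.LP


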